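import Pool.Agent.N940.CO.Main0

/-!
# The slope of the copolymer critical curve is strictly above `1/(1+alpha)`

For return laws `K` with `K(n) ~ c n^(-3/2)` (as for the simple random walk) and every charge law,
the critical curve of the copolymer at a selective interface satisfies
`liminf_{lambda -> 0} h_c(lambda) / lambda > 2 / 3`, so that `m_{1/2} > 2/3`.

Method (`Pool/Agent/N940/CO`): with `gamma = 1/(1+alpha)`, the moment of order `gamma` of the
partition function of a large block (in units of `1/lambda^2`), at `h = gamma * lambda`, is bounded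
from below by a sum over patterns of switches between long excursions above and below the
interface; a gap of length `n` between two switches contributes `c / n`, because
`(1 + alpha) * gamma = 1`, and the environments favourable to two different patterns are nearly
disjoint (Hellinger affinity), up to a constant factor for each switch. Since the sum of `1/n`
diverges, the moment is as large as we please, uniformly for small `lambda`, also at
`h = (gamma + eps) * lambda`. Between two switches of a pattern the contribution of all the short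
excursions in a cell of size `1/lambda^2` is bounded from below by the inequality of Jensen. Finally
rare good stretches of blocks are joined by long excursions above the interface.
-/

set_option autoImplicit false

open MeasureTheory Filter Topology

namespace Pool.Agent.Results.MP_c26281_pr.SlopeAboveTwoThirds

noncomputable section

/-- Law of one excursion: its length has law `K`, its sign is an independent fair sign
(`true` is the negative sign). -/
def excursionLaw (K : ℕ → ℝ) : Measure (ℕ × Bool) :=
  Measure.sum (fun n : ℕ => ENNReal.ofReal (K n / 2) •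
    (Measure.dirac (n, true) + Measure.dirac (n, false)))

/-- Law of the sequence of independent excursions. -/
def pathLaw (K : ℕ → ℝ) : Measure (ℕ → ℕ × Bool) :=
  Measure.infinitePi (fun _ : ℕ => excursionLaw K)

/-- Renewal epochs: `tau s i` is the sum of the first `i` excursion lengths. -/
def tau (s : ℕ → ℕ × Bool) (i : ℕ) : ℕ := ∑ l ∈ Finset.range i, (s l).1

open Classical in
/-- `Delta s n = 1` if `n` lies in an excursion `(tau s i, tau s (i + 1)]` with negative sign,
and `0` otherwise. -/
def Delta (s : ℕ → ℕ × Bool) (n : ℕ) : ℝ :=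
  if ∃ i, tau s i < n ∧ n ≤ tau s (i + 1) ∧ (s i).2 = true then 1 else 0

/-- The partition function `E exp(-2 lambda sum_{n=1}^N Delta_n (omega_n + h))`. -/
def Z (K : ℕ → ℝ) (lam h : ℝ) (om : ℕ → ℝ) (N : ℕ) : ℝ :=
  ∫ s, Real.exp (-2 * lam * ∑ n ∈ Finset.Icc 1 N, Delta s n * (om n + h)) ∂(pathLaw K)

/-- The free energy: lower limit of `1/N` times the disorder expectation of `log Z_N`, where the
charges are independent with law `nu`. -/
def freeEnergy (K : ℕ → ℝ) (nu : Measure ℝ) (lam h : ℝ) : EReal :=
  liminf (fun N : ℕ => (((1 / (N : ℝ)) *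
    ∫ om, Real.log (Z K lam h om N) ∂(Measure.infinitePi (fun _ : ℕ => nu)) : ℝ) : EReal)) atTop

/-- The critical point `sup {h : F(lambda, h) > 0}`. -/
def hc (K : ℕ → ℝ) (nu : Measure ℝ) (lam : ℝ) : ℝ := sSup {h : ℝ | 0 < freeEnergy K nu lam h}

/-- Return laws of the model with exponent `al`. -/
structure ReturnLaw (al : ℝ) (K : ℕ → ℝ) : Prop where
  zero : K 0 = 0
  nonneg : ∀ n, 0 ≤ K n
  sum : HasSum K 1
  tail : ∃ cK : ℝ, 0 < cK ∧ Tendsto (fun n : ℕ => K n * (n : ℝ) ^ (1 + al)) atTop (𝓝 cK)

/-- Laws of one charge: probability measures with mean `0`, variance `1` and finite exponential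
moments of every order. -/
structure ChargeLaw (nu : Measure ℝ) : Prop where
  prob : IsProbabilityMeasure nu
  exp : ∀ t : ℝ, Integrable (fun x => Real.exp (t * x)) nu
  mean : ∫ x, x ∂nu = 0
  var : ∫ x, x ^ 2 ∂nu = 1

/-- **Main theorem.** For return laws of exponent `1/2` the slope at the origin of the critical curve
is strictly larger than `2/3`. -/
theorem result (K : ℕ → ℝ) (hK : ReturnLaw (1 / 2) K) (nu : Measure ℝ) (hnu : ChargeLaw nu) :
    (∃ eps : ℝ, 0 < eps ∧ ∀ᶠ lam : ℝ in 𝓝[>] 0, 2 / 3 + eps ≤ hc K nu lam / lam) ∧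
    (∀ m : ℝ, Tendsto (fun lam => hc K nu lam / lam) (𝓝[>] 0) (𝓝 m) → 2 / 3 < m) := by
  have hR : Pool.Agent.N940.CO.Ren (1 / 2) K :=
    ⟨by norm_num, by norm_num, hK.zero, hK.nonneg, hK.sum, hK.tail⟩
  have hD : Pool.Agent.N940.CO.Dis nu := ⟨hnu.prob, hnu.exp, hnu.mean, hnu.var⟩
  have h23 : (1 : ℝ) / (1 + 1 / 2) = 2 / 3 := by norm_num
  have key : ∃ eps : ℝ, 0 < eps ∧ ∀ᶠ lam : ℝ in 𝓝[>] 0,
      2 / 3 + eps ≤ hc K nu lam / lam := by
    obtain ⟨eps, heps, lam0, hlam0, h2⟩ := Pool.Agent.N940.CO.Main0.pos hR hD
    rw [h23] at h2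
    refine ⟨eps, heps, ?_⟩
    have h4 : ∀ᶠ lam : ℝ in 𝓝[>] 0, lam < lam0 :=
      (tendsto_order.1 (tendsto_nhdsWithin_of_tendsto_nhds tendsto_id)).2 _ hlam0
    filter_upwards [h4, self_mem_nhdsWithin] with lam hl1 hl2
    have hl3 : (0 : ℝ) < lam := hl2
    rw [le_div_iff₀ hl3]
    exact le_csSup (Pool.Agent.N940.CO.Main0.bdd hR hD hl3) (h2 lam hl3 hl1)
  refine ⟨key, fun m hm => ?_⟩
  obtain ⟨eps, heps, h3⟩ := key
  have h5 : 2 / 3 + eps ≤ m := ge_of_tendsto hm h3
  linarith

end

end Pool.Agent.Results.MP_c26281_pr.SlopeAboveTwoThirds
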